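import Mathlib

set_option autoImplicit false
open Finset

namespace Pool.Agent.H817R2.C20

lemma sum_psc_union {α : Type*} [DecidableEq α] (A B : Finset α) (h : Disjoint A B) (r : ℕ)
    (F : Finset α → ℤ) :
    ∑ T ∈ powersetCard r (A ∪ B), F T =
      ∑ p ∈ range (r+1), ∑ T1 ∈ powersetCard p A, ∑ T2 ∈ powersetCard (r-p) B, F (T1 ∪ T2) := by
  have h1 : ∀ p ∈ range (r+1), (∑ T1 ∈ powersetCard p A, ∑ T2 ∈ powersetCard (r-p) B, F (T1 ∪ T2)) =
      ∑ q ∈ powersetCard p A ×ˢ powersetCard (r-p) B, F (q.1 ∪ q.2) := by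
    intro p _
    rw [Finset.sum_product]
  rw [Finset.sum_congr rfl h1, Finset.sum_sigma']
  symm
  refine Finset.sum_nbij' (fun z => z.2.1 ∪ z.2.2) (fun T => ⟨(T ∩ A).card, (T ∩ A, T ∩ B)⟩) ?_ ?_ ?_ ?_ ?_
  · rintro ⟨p, T1, T2⟩ hz
    simp only [mem_sigma, mem_range, mem_product, mem_powersetCard] at hz ⊢
    obtain ⟨hp, ⟨h1, h2⟩, h3, h4⟩ := hz
    refine ⟨union_subset_union h1 h3, ?_⟩
    rw [card_union_of_disjoint (disjoint_of_subset_left h1 (disjoint_of_subset_right h3 h))]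
    omega
  · intro T hT
    simp only [mem_sigma, mem_range, mem_product, mem_powersetCard] at hT ⊢
    obtain ⟨hT1, hT2⟩ := hT
    have hc : (T ∩ A).card + (T ∩ B).card = r := by
      rw [← card_union_of_disjoint (disjoint_of_subset_left inter_subset_right
        (disjoint_of_subset_right inter_subset_right h)), ← inter_union_distrib_left,
        inter_eq_left.mpr hT1, hT2]
    exact ⟨by omega, ⟨inter_subset_right, trivial⟩, inter_subset_right, by omega⟩
  · rintro ⟨p, T1, T2⟩ hz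
    simp only [mem_sigma, mem_range, mem_product, mem_powersetCard] at hz
    obtain ⟨hp, ⟨h1, h2⟩, h3, h4⟩ := hz
    have e1 : (T1 ∪ T2) ∩ A = T1 := by
      rw [union_inter_distrib_right, inter_eq_left.mpr h1]
      have : T2 ∩ A = ∅ := by
        rw [← disjoint_iff_inter_eq_empty]
        exact (disjoint_of_subset_right h3 h).symm
      rw [this, union_empty]
    have e2 : (T1 ∪ T2) ∩ B = T2 := by
      rw [union_inter_distrib_right, inter_eq_left.mpr h3]
      have : T1 ∩ B = ∅ := by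
        rw [← disjoint_iff_inter_eq_empty]
        exact (disjoint_of_subset_left h1 h)
      rw [this, empty_union]
    simp only [e1, e2, h2]
  · intro T hT
    simp only [mem_powersetCard] at hT
    simp only
    rw [← inter_union_distrib_left, inter_eq_left.mpr hT.1]
  · intro z _
    rfl

/-- four-region count -/
def R4 (r a b c d : ℕ) (f g : ℕ → ℤ) : ℤ :=
  ∑ p ∈ range (r+1), ∑ q ∈ range (r-p+1), ∑ s ∈ range (r-p-q+1),
    ((a.choose p * b.choose q * c.choose s * d.choose (r-p-q-s) : ℕ) : ℤ) * (f (p+q) * g (p+s))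

lemma sum_four {α : Type*} [DecidableEq α] [Fintype α] (X Y : Finset α) (r : ℕ) (f g : ℕ → ℤ) :
    ∑ T ∈ powersetCard r (univ : Finset α), f (T ∩ X).card * g (T ∩ Y).card =
      R4 r (X ∩ Y).card (X \ Y).card (Y \ X).card (Xᶜ ∩ Yᶜ).card f g := by
  classical
  have hU : (univ : Finset α) = (X ∩ Y) ∪ ((X \ Y) ∪ ((Y \ X) ∪ (Xᶜ ∩ Yᶜ))) := by
    ext i; simp only [mem_univ, mem_union, mem_inter, mem_sdiff, mem_compl]; tauto
  have d3 : Disjoint (Y \ X) (Xᶜ ∩ Yᶜ) := by
    rw [disjoint_left]; intro i; simp only [mem_inter, mem_sdiff, mem_compl]; tauto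
  have d2 : Disjoint (X \ Y) ((Y \ X) ∪ (Xᶜ ∩ Yᶜ)) := by
    rw [disjoint_left]; intro i; simp only [mem_union, mem_inter, mem_sdiff, mem_compl]; tauto
  have d1 : Disjoint (X ∩ Y) ((X \ Y) ∪ ((Y \ X) ∪ (Xᶜ ∩ Yᶜ))) := by
    rw [disjoint_left]; intro i; simp only [mem_union, mem_inter, mem_sdiff, mem_compl]; tauto
  rw [hU, sum_psc_union _ _ d1]
  unfold R4
  refine Finset.sum_congr rfl fun p _ => ?_
  have key : ∀ T1 ∈ powersetCard p (X ∩ Y),
      (∑ T2 ∈ powersetCard (r-p) ((X \ Y) ∪ ((Y \ X) ∪ (Xᶜ ∩ Yᶜ))),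
        f ((T1 ∪ T2) ∩ X).card * g ((T1 ∪ T2) ∩ Y).card) =
      ∑ q ∈ range (r-p+1), ∑ s ∈ range (r-p-q+1),
        ((((X \ Y).card.choose q * (Y \ X).card.choose s * (Xᶜ ∩ Yᶜ).card.choose (r-p-q-s) : ℕ) : ℤ) *
          (f (p+q) * g (p+s))) := by
    intro T1 hT1
    rw [sum_psc_union _ _ d2]
    refine Finset.sum_congr rfl fun q _ => ?_
    have key2 : ∀ T2 ∈ powersetCard q (X \ Y),
        (∑ T3 ∈ powersetCard (r-p-q) ((Y \ X) ∪ (Xᶜ ∩ Yᶜ)),
          f ((T1 ∪ (T2 ∪ T3)) ∩ X).card * g ((T1 ∪ (T2 ∪ T3)) ∩ Y).card) =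
        ∑ s ∈ range (r-p-q+1),
          ((((Y \ X).card.choose s * (Xᶜ ∩ Yᶜ).card.choose (r-p-q-s) : ℕ) : ℤ) *
            (f (p+q) * g (p+s))) := by
      intro T2 hT2
      rw [sum_psc_union _ _ d3]
      refine Finset.sum_congr rfl fun s _ => ?_
      have key3 : ∀ T3 ∈ powersetCard s (Y \ X), ∀ T4 ∈ powersetCard (r-p-q-s) (Xᶜ ∩ Yᶜ),
          f ((T1 ∪ (T2 ∪ (T3 ∪ T4))) ∩ X).card * g ((T1 ∪ (T2 ∪ (T3 ∪ T4))) ∩ Y).card =
            f (p+q) * g (p+s) := by
        intro T3 hT3 T4 hT4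
        rw [mem_powersetCard] at hT1 hT2 hT3 hT4
        have hX : (T1 ∪ (T2 ∪ (T3 ∪ T4))) ∩ X = T1 ∪ T2 := by
          ext i
          have a1 : i ∈ T1 → _ := fun h => hT1.1 h
          have a2 : i ∈ T2 → _ := fun h => hT2.1 h
          have a3 : i ∈ T3 → _ := fun h => hT3.1 h
          have a4 : i ∈ T4 → _ := fun h => hT4.1 h
          simp only [mem_union, mem_inter, mem_sdiff, mem_compl] at *
          tauto
        have hY : (T1 ∪ (T2 ∪ (T3 ∪ T4))) ∩ Y = T1 ∪ T3 := by
          ext i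
          have a1 : i ∈ T1 → _ := fun h => hT1.1 h
          have a2 : i ∈ T2 → _ := fun h => hT2.1 h
          have a3 : i ∈ T3 → _ := fun h => hT3.1 h
          have a4 : i ∈ T4 → _ := fun h => hT4.1 h
          simp only [mem_union, mem_inter, mem_sdiff, mem_compl] at *
          tauto
        have e12 : Disjoint T1 T2 := by
          rw [disjoint_left]; intro i h1 h2
          have a1 := hT1.1 h1
          have a2 := hT2.1 h2
          simp only [mem_inter, mem_sdiff] at a1 a2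
          tauto
        have e13 : Disjoint T1 T3 := by
          rw [disjoint_left]; intro i h1 h2
          have a1 := hT1.1 h1
          have a2 := hT3.1 h2
          simp only [mem_inter, mem_sdiff] at a1 a2
          tauto
        rw [hX, hY, card_union_of_disjoint e12, card_union_of_disjoint e13, hT1.2, hT2.2, hT3.2]
      rw [Finset.sum_congr rfl fun T3 hT3 => Finset.sum_congr rfl fun T4 hT4 => key3 T3 hT3 T4 hT4]
      simp only [sum_const, card_powersetCard, nsmul_eq_mul]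
      push_cast
      ring
    rw [Finset.sum_congr rfl key2]
    simp only [sum_const, card_powersetCard, nsmul_eq_mul, Finset.mul_sum]
    refine Finset.sum_congr rfl fun s _ => ?_
    push_cast
    ring
  rw [Finset.sum_congr rfl key]
  simp only [sum_const, card_powersetCard, nsmul_eq_mul, Finset.mul_sum]
  refine Finset.sum_congr rfl fun q _ => ?_
  refine Finset.sum_congr rfl fun s _ => ?_
  push_cast
  ring

end Pool.Agent.H817R2.C20
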