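import Mathlib
import Pool.Agent.H817R2.C20A

set_option autoImplicit false
open Finset

namespace Pool.Agent.H817R2.C20

abbrev Wd := Finset (Fin 21)

lemma card_symm (A B : Wd) : A.card + B.card = (symmDiff A B).card + 2 * (A ∩ B).card := by
  have h1 : (symmDiff A B).card = (A \ B).card + (B \ A).card := by
    rw [symmDiff_def, sup_eq_union, card_union_of_disjoint]
    rw [disjoint_left]; intro i; simp only [mem_sdiff]; tauto
  have h2 := card_sdiff_add_card_inter A B
  have h3 := card_sdiff_add_card_inter B A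
  rw [inter_comm B A] at h3
  omega

lemma symm_compl (A B : Wd) : symmDiff Aᶜ Bᶜ = symmDiff A B := by
  ext i; simp only [mem_symmDiff, mem_compl]; tauto

lemma symm_tri (c x y : Wd) : symmDiff (symmDiff c x) (symmDiff c y) = symmDiff x y := by
  ext i; simp only [mem_symmDiff]; tauto

structure IsCode (C : Finset Wd) : Prop where
  card : C.card = 4096
  even : ∀ x ∈ C, Even x.card
  dist : ∀ x ∈ C, ∀ y ∈ C, x ≠ y → 6 ≤ (symmDiff x y).card

lemma card_le21 (A : Wd) : A.card ≤ 21 := by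
  have := card_le_univ A
  simpa using this

lemma IsCode.vals {C : Finset Wd} (h : IsCode C) {x y : Wd} (hx : x ∈ C) (hy : y ∈ C) :
    (symmDiff x y).card = 0 ∨ (symmDiff x y).card = 6 ∨ (symmDiff x y).card = 8 ∨
    (symmDiff x y).card = 10 ∨ (symmDiff x y).card = 12 ∨ (symmDiff x y).card = 14 ∨
    (symmDiff x y).card = 16 ∨ (symmDiff x y).card = 18 ∨ (symmDiff x y).card = 20 := by
  have h1 := card_symm x y
  obtain ⟨a, ha⟩ := h.even x hx
  obtain ⟨b, hb⟩ := h.even y hy
  have h2 := card_le21 (symmDiff x y)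
  by_cases hxy : x = y
  · left; subst hxy; simp
  · have h3 := h.dist x hx y hy hxy
    omega

lemma symm_zero {x y : Wd} (h : (symmDiff x y).card = 0) : x = y := by
  rw [card_eq_zero] at h
  exact symmDiff_eq_bot.mp h

def Nn (C : Finset Wd) (k : ℕ) (c : Wd) : ℕ := (C.filter fun x => (symmDiff c x).card = k).card

/-- two words at distances ≥ 18 from `c` -/
lemma IsCode.far {C : Finset Wd} (h : IsCode C) {c x y : Wd} (hx : x ∈ C) (hy : y ∈ C)
    (hxy : x ≠ y) :
    (symmDiff c x).card + (symmDiff c y).card + 6 + 2 * ((symmDiff c x)ᶜ ∩ (symmDiff c y)ᶜ).card ≤ 42 := by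
  have h1 := card_symm (symmDiff c x)ᶜ (symmDiff c y)ᶜ
  rw [symm_compl, symm_tri] at h1
  have h2 := h.dist x hx y hy hxy
  have h3 := card_compl_add_card (symmDiff c x)
  have h4 := card_compl_add_card (symmDiff c y)
  simp only [Fintype.card_fin] at h3 h4
  omega

lemma IsCode.types_bound {C : Finset Wd} (h : IsCode C) (c : Wd) :
    Nn C 18 c + 7 * Nn C 20 c ≤ 7 := by
  by_cases h20 : Nn C 20 c = 0
  · rw [h20]
    unfold Nn
    set S := C.filter fun x => (symmDiff c x).card = 18 with hS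
    have hd : ∀ x ∈ S, ∀ y ∈ S, x ≠ y → Disjoint (symmDiff c x)ᶜ (symmDiff c y)ᶜ := by
      intro x hx y hy hxy
      rw [hS, mem_filter] at hx hy
      have := h.far (c := c) hx.1 hy.1 hxy
      rw [disjoint_iff_inter_eq_empty, ← card_eq_zero]
      omega
    have h1 : (S.biUnion fun x => (symmDiff c x)ᶜ).card = ∑ x ∈ S, ((symmDiff c x)ᶜ).card :=
      card_biUnion (fun x hx y hy hxy => hd x hx y hy hxy)
    have h2 : ∑ x ∈ S, ((symmDiff c x)ᶜ).card = ∑ x ∈ S, 3 := by
      refine Finset.sum_congr rfl fun x hx => ?_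
      rw [hS, mem_filter] at hx
      have h3 := card_compl_add_card (symmDiff c x)
      simp only [Fintype.card_fin] at h3
      omega
    have h4 := card_le21 (S.biUnion fun x => (symmDiff c x)ᶜ)
    rw [h1, h2, sum_const, smul_eq_mul] at h4
    omega
  · obtain ⟨z, hz⟩ := card_pos.mp (Nat.pos_of_ne_zero h20)
    rw [mem_filter] at hz
    have h1 : Nn C 18 c = 0 := by
      unfold Nn
      rw [card_eq_zero, filter_eq_empty_iff]
      intro x hx hx18
      have hne : x ≠ z := by rintro rfl; omega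
      have := h.far (c := c) hx hz.1 hne
      omega
    have h2 : Nn C 20 c ≤ 1 := by
      unfold Nn
      rw [card_le_one]
      intro x hx y hy
      rw [mem_filter] at hx hy
      by_contra hne
      have := h.far (c := c) hx.1 hy.1 hne
      omega
    omega

/-- characters -/
def sg (n : ℕ) : ℤ := (-1) ^ n

lemma sg_mul (T x y : Wd) :
    sg (T ∩ x).card * sg (T ∩ y).card = sg (T ∩ symmDiff x y).card := by
  have h := card_symm (T ∩ x) (T ∩ y)
  have h2 : symmDiff (T ∩ x) (T ∩ y) = T ∩ symmDiff x y := by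
    ext i; simp only [mem_symmDiff, mem_inter]; tauto
  rw [h2] at h
  unfold sg
  rw [← pow_add, h, pow_add, pow_mul]
  norm_num

def Fh (C : Finset Wd) (T : Wd) : ℤ := ∑ x ∈ C, sg (T ∩ x).card

lemma Fh_sq (C : Finset Wd) (T : Wd) :
    (Fh C T) ^ 2 = ∑ c ∈ C, ∑ x ∈ C, sg (T ∩ symmDiff c x).card := by
  unfold Fh
  rw [sq, Finset.sum_mul_sum]
  refine Finset.sum_congr rfl fun c _ => Finset.sum_congr rfl fun x _ => sg_mul T c x

lemma sum_two (X : Wd) (r : ℕ) (f : ℕ → ℤ) :
    ∑ T ∈ powersetCard r (univ : Wd), f (T ∩ X).card =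
      ∑ p ∈ range (r+1), ((X.card.choose p * (21 - X.card).choose (r-p) : ℕ) : ℤ) * f p := by
  have hU : (univ : Wd) = X ∪ Xᶜ := by simp
  have hd : Disjoint X Xᶜ := disjoint_compl_right
  rw [hU, sum_psc_union _ _ hd]
  refine Finset.sum_congr rfl fun p _ => ?_
  have key : ∀ T1 ∈ powersetCard p X, ∀ T2 ∈ powersetCard (r-p) Xᶜ,
      f ((T1 ∪ T2) ∩ X).card = f p := by
    intro T1 h1 T2 h2
    rw [mem_powersetCard] at h1 h2
    have : (T1 ∪ T2) ∩ X = T1 := by
      ext i
      have a1 : i ∈ T1 → _ := fun h => h1.1 h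
      have a2 : i ∈ T2 → _ := fun h => h2.1 h
      simp only [mem_union, mem_inter, mem_compl] at *
      tauto
    rw [this, h1.2]
  rw [Finset.sum_congr rfl fun T1 hT1 => Finset.sum_congr rfl fun T2 hT2 => key T1 hT1 T2 hT2]
  simp only [sum_const, card_powersetCard, nsmul_eq_mul, card_compl, Fintype.card_fin]
  push_cast
  ring

def Kr (j i : ℕ) : ℤ :=
  ∑ p ∈ range (j+1), ((i.choose p * (21 - i).choose (j-p) : ℕ) : ℤ) * sg p

def bet (i : ℤ) : ℤ := (i-6)*(i-8)*(i-10)*(i-12)*(i-14)*(i-16)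

def bc : ℕ → ℤ
  | 0 => 1575
  | 1 => 675
  | 2 => 675
  | 3 => 225
  | 4 => 225
  | 5 => 45
  | 6 => 45
  | _ => 0

lemma bet_expand : ∀ i ∈ range 22, 4 * bet i = ∑ j ∈ range 7, bc j * Kr j i := by
  decide +kernel

end Pool.Agent.H817R2.C20
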