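import Mathlib
import Pool.Agent.H817R2.C20B

set_option autoImplicit false
open Finset

namespace Pool.Agent.H817R2.C20

lemma Nn_zero {C : Finset Wd} {c : Wd} (hc : c ∈ C) : Nn C 0 c = 1 := by
  unfold Nn
  rw [card_eq_one]
  refine ⟨c, ?_⟩
  ext x
  simp only [mem_filter, mem_singleton]
  constructor
  · rintro ⟨_, h⟩; exact (symm_zero h).symm
  · rintro rfl; exact ⟨hc, by simp⟩

lemma sum_ind (C : Finset Wd) (k : ℕ) (c : Wd) :
    ∑ x ∈ C, (if (symmDiff c x).card = k then (1:ℤ) else 0) = Nn C k c := by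
  unfold Nn
  rw [Finset.sum_boole]
  
lemma IsCode.sum_bet {C : Finset Wd} (h : IsCode C) {c : Wd} (hc : c ∈ C) :
    ∑ x ∈ C, 4 * bet (symmDiff c x).card = 184320 * (28 + Nn C 18 c + 7 * Nn C 20 c) := by
  have h1 : ∀ x ∈ C, 4 * bet (symmDiff c x).card =
      5160960 * (if (symmDiff c x).card = 0 then (1:ℤ) else 0) +
      184320 * (if (symmDiff c x).card = 18 then (1:ℤ) else 0) +
      1290240 * (if (symmDiff c x).card = 20 then (1:ℤ) else 0) := by
    intro x hx
    rcases h.vals hc hx with h | h | h | h | h | h | h | h | h <;> rw [h] <;> norm_num [bet]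
  rw [Finset.sum_congr rfl h1, sum_add_distrib, sum_add_distrib, ← mul_sum, ← mul_sum, ← mul_sum,
    sum_ind, sum_ind, sum_ind, Nn_zero hc]
  push_cast
  ring

lemma sum_LP (C : Finset Wd) :
    ∑ c ∈ C, ∑ x ∈ C, 4 * bet (symmDiff c x).card =
      ∑ j ∈ range 7, bc j * ∑ T ∈ powersetCard j (univ : Wd), (Fh C T) ^ 2 := by
  have h1 : ∀ c ∈ C, ∀ x ∈ C, 4 * bet (symmDiff c x).card =
      ∑ j ∈ range 7, bc j * ∑ T ∈ powersetCard j (univ : Wd), sg (T ∩ symmDiff c x).card := by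
    intro c _ x _
    have hl := card_le21 (symmDiff c x)
    have h2 := bet_expand (symmDiff c x).card (mem_range.mpr (by omega))
    rw [h2]
    refine Finset.sum_congr rfl fun j _ => ?_
    rw [sum_two (symmDiff c x) j sg]
    rfl
  rw [Finset.sum_congr rfl fun c hc => Finset.sum_congr rfl fun x hx => h1 c hc x hx]
  calc ∑ c ∈ C, ∑ x ∈ C, ∑ j ∈ range 7, bc j * ∑ T ∈ powersetCard j (univ : Wd), sg (T ∩ symmDiff c x).card
      = ∑ j ∈ range 7, ∑ c ∈ C, ∑ x ∈ C, bc j * ∑ T ∈ powersetCard j (univ : Wd), sg (T ∩ symmDiff c x).card := by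
        rw [Finset.sum_congr rfl fun c hc => Finset.sum_comm]
        rw [Finset.sum_comm]
    _ = _ := by
        refine Finset.sum_congr rfl fun j _ => ?_
        simp only [← mul_sum]
        congr 1
        simp only [Fh_sq]
        rw [Finset.sum_congr rfl fun c hc => Finset.sum_comm]
        rw [Finset.sum_comm]

lemma Fh_empty (C : Finset Wd) : Fh C ∅ = C.card := by
  unfold Fh sg
  simp

theorem IsCode.tight {C : Finset Wd} (h : IsCode C) :
    (∀ T : Wd, 1 ≤ T.card → T.card ≤ 6 → Fh C T = 0) ∧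
    (∀ c ∈ C, Nn C 18 c + 7 * Nn C 20 c = 7) := by
  have e1 := sum_LP C
  rw [Finset.sum_congr rfl fun c hc => h.sum_bet hc] at e1
  have e2 : ∑ j ∈ range 7, bc j * ∑ T ∈ powersetCard j (univ : Wd), (Fh C T) ^ 2 =
      1575 * 4096 ^ 2 + ∑ j ∈ Finset.Icc 1 6, bc j * ∑ T ∈ powersetCard j (univ : Wd), (Fh C T) ^ 2 := by
    have : range 7 = insert 0 (Finset.Icc 1 6) := by decide
    rw [this, sum_insert (by decide)]
    simp [Fh_empty, h.card, bc]
  have e3 : ∑ c ∈ C, 184320 * (28 + (Nn C 18 c : ℤ) + 7 * (Nn C 20 c : ℤ)) =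
      184320 * 35 * 4096 - 184320 * ∑ c ∈ C, (7 - ((Nn C 18 c : ℤ) + 7 * (Nn C 20 c : ℤ))) := by
    rw [← mul_sum, sum_sub_distrib]
    have : ∑ c ∈ C, (28 + (Nn C 18 c : ℤ) + 7 * (Nn C 20 c : ℤ)) =
      28 * 4096 + ∑ c ∈ C, ((Nn C 18 c : ℤ) + 7 * (Nn C 20 c : ℤ)) := by
      simp only [add_assoc, sum_add_distrib]
      simp [h.card]
    rw [this]
    simp only [sum_const, h.card]
    ring
  rw [e2, e3] at e1
  have n1 : ∀ j ∈ Finset.Icc 1 6, 0 ≤ bc j * ∑ T ∈ powersetCard j (univ : Wd), (Fh C T) ^ 2 := by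
    intro j hj
    have : 0 ≤ bc j := by
      rw [mem_Icc] at hj
      obtain ⟨h1, h2⟩ := hj
      interval_cases j <;> simp [bc]
    exact mul_nonneg this (sum_nonneg fun T _ => sq_nonneg _)
  have n2 : ∀ c ∈ C, 0 ≤ (7 - ((Nn C 18 c : ℤ) + 7 * (Nn C 20 c : ℤ))) := by
    intro c _
    have := h.types_bound c
    omega
  have s1 := sum_nonneg n1
  have s2 := sum_nonneg n2
  have z1 : ∑ j ∈ Finset.Icc 1 6, bc j * ∑ T ∈ powersetCard j (univ : Wd), (Fh C T) ^ 2 = 0 := by linarith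
  have z2 : ∑ c ∈ C, (7 - ((Nn C 18 c : ℤ) + 7 * (Nn C 20 c : ℤ))) = 0 := by linarith
  rw [sum_eq_zero_iff_of_nonneg n1] at z1
  rw [sum_eq_zero_iff_of_nonneg n2] at z2
  constructor
  · intro T h1 h6
    have := z1 T.card (mem_Icc.mpr ⟨h1, h6⟩)
    have hb : bc T.card ≠ 0 := by
      generalize T.card = k at *
      interval_cases k <;> simp [bc]
    have := (mul_eq_zero.mp this).resolve_left hb
    rw [sum_eq_zero_iff_of_nonneg fun T _ => sq_nonneg _] at this
    have := this T (by rw [mem_powersetCard]; exact ⟨subset_univ _, rfl⟩)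
    exact pow_eq_zero_iff (two_ne_zero) |>.mp this
  · intro c hc
    have := z2 c hc
    omega

/-- orthogonal array property of strength 6 -/
theorem IsCode.oa {C : Finset Wd} (h : IsCode C) (c U : Wd) (hU : U.card ≤ 6) :
    (2:ℤ) ^ U.card * ∑ y ∈ C, (if U ⊆ symmDiff c y then (1:ℤ) else 0) = 4096 := by
  have key : ∀ y ∈ C, (2:ℤ) ^ U.card * (if U ⊆ symmDiff c y then (1:ℤ) else 0) =
      ∑ T ∈ U.powerset, (-1) ^ T.card * (sg (T ∩ c).card * sg (T ∩ y).card) := by
    intro y _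
    have h1 : ∏ i ∈ U, (1 + (if i ∈ symmDiff c y then (1:ℤ) else -1)) =
        (2:ℤ) ^ U.card * (if U ⊆ symmDiff c y then (1:ℤ) else 0) := by
      split_ifs with hs
      · rw [Finset.prod_congr rfl (g := fun _ => (2:ℤ))]
        · simp
        · intro i hi; rw [if_pos (hs hi)]; norm_num
      · rw [not_subset] at hs
        obtain ⟨i, hi, hn⟩ := hs
        rw [prod_eq_zero hi]
        · simp
        · rw [if_neg hn]; norm_num
    rw [← h1, prod_one_add]
    refine Finset.sum_congr rfl fun T _ => ?_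
    rw [sg_mul]
    have h2 : ∀ i ∈ T, (if i ∈ symmDiff c y then (1:ℤ) else -1) = (-1) * (if i ∈ symmDiff c y then -1 else 1) := by
      intro i _; split_ifs <;> norm_num
    rw [Finset.prod_congr rfl h2, prod_mul_distrib, prod_const]
    congr 1
    rw [prod_ite, prod_const_one, mul_one, prod_const, filter_mem_eq_inter]
    rfl
  rw [mul_sum, Finset.sum_congr rfl key, sum_comm]
  rw [Finset.sum_eq_single ∅]
  · simp [sg, h.card]
  · intro T hT hne
    rw [mem_powerset] at hT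
    have hc1 : 1 ≤ T.card := card_pos.mpr (nonempty_iff_ne_empty.mpr hne)
    have hc2 : T.card ≤ 6 := (card_le_card hT).trans hU
    have := h.tight.1 T hc1 hc2
    rw [← mul_sum, ← mul_sum]
    unfold Fh at this
    rw [this]; simp
  · intro hn
    exact absurd (empty_mem_powerset U) hn

end Pool.Agent.H817R2.C20
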