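import Mathlib
import Pool.Agent.H817R2.C20C

set_option autoImplicit false
open Finset

namespace Pool.Agent.H817R2.C20

/-- fast binomial coefficient for small lower index -/
def ch (n : ℕ) : ℕ → ℕ
  | 0 => 1
  | 1 => n
  | 2 => n * (n-1) / 2
  | 3 => n * (n-1) * (n-2) / 6
  | 4 => n * (n-1) * (n-2) * (n-3) / 24
  | 5 => n * (n-1) * (n-2) * (n-3) * (n-4) / 120
  | 6 => n * (n-1) * (n-2) * (n-3) * (n-4) * (n-5) / 720
  | _ => 0

lemma ch_eq : ∀ n ∈ range 22, ∀ k ∈ range 7, n.choose k = ch n k := by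
  decide +kernel

def hr : ℕ → ℕ → ℕ → ℤ
  | 2, 20, t => 3 * ((2 - t : ℕ) : ℤ) - 1
  | 2, 18, t => 3 * (ch (2-t) 2 : ℤ)
  | 2, 16, t => (ch (2-t) 2 : ℤ)
  | 3, 6, t => (ch t 3 : ℤ)
  | 4, 20, t => ((4 - t : ℕ) : ℤ)
  | 4, 18, t => (ch (4-t) 2 : ℤ) + (ch (4-t) 3 : ℤ)
  | 4, 16, t => (ch (4-t) 3 : ℤ) + (ch (4-t) 4 : ℤ)
  | 4, 14, t => (ch (4-t) 4 : ℤ)
  | 4, 6, t => (ch t 4 : ℤ)
  | _, _, _ => 0

def R4f (r a b c d : ℕ) (f g : ℕ → ℤ) : ℤ :=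
  ∑ p ∈ range (r+1), ∑ q ∈ range (r-p+1), ∑ s ∈ range (r-p-q+1),
    ((ch a p * ch b q * ch c s * ch d (r-p-q-s) : ℕ) : ℤ) * (f (p+q) * g (p+s))

def Psi (r w v z : ℕ) : ℤ :=
  R4f r ((w+v-z)/2) (w-(w+v-z)/2) (v-(w+v-z)/2) (21-(w+v-(w+v-z)/2)) (hr r w) (hr r v)

def Phi (w v z : ℕ) : ℤ := 9 * Psi 2 w v z + Psi 3 w v z + Psi 4 w v z

def gl : ℕ → List (ℕ × ℕ × ℤ)
  | 6 => [(0, 0, 100656), (0, 1, -37648), (0, 2, 7200), (0, 3, 3520), (0, 4, -4480), (0, 5, 2304), (0, 6, -512), (2, 0, -46880), (2, 1, 22464), (2, 2, -9088), (2, 3, 2816), (2, 4, -512), (4, 0, -128)]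
  | 16 => [(0, 0, -191744), (0, 1, 658472), (0, 2, -386000), (0, 3, -38832), (0, 4, 29184), (0, 5, 704), (2, 0, 7488), (2, 1, -26576), (2, 2, 15744), (2, 3, 1344), (2, 4, -1024), (4, 0, -256), (4, 1, 1216), (4, 2, -768)]
  | 18 => [(0, 0, 58042517), (0, 1, 274243), (0, 2, -1798186), (0, 3, -172040), (2, 0, -1865594), (2, 1, -7520), (2, 2, 56520), (2, 3, 4584), (4, 0, 74368), (4, 1, -8), (4, 2, -1872), (6, 0, -3024)]
  | 20 => [(0, 0, 51119520), (0, 1, -16183248), (2, 0, -1303840), (2, 1, 414784), (4, 0, 35968), (4, 1, -11776)]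
  | _ => []

def ew : ℕ → ℤ
  | 6 => 539648
  | 14 => 35840
  | 16 => 334848
  | 18 => -1063936
  | 20 => -25118720
  | _ => 0

def Gf (w a b : ℕ) : ℤ := ((gl w).map fun t => t.2.2 * ((ch a t.1 * ch b t.2.1 : ℕ) : ℤ)).sum

def Gw (w v z : ℕ) : ℤ := Gf w ((w+v-z)/2) (v-(w+v-z)/2) + (if v = 0 then ew w else 0)

def dvals : List ℕ := [0, 6, 8, 10, 12, 14, 16, 18, 20]

def okk (w v z : ℕ) : Bool :=
  w ≤ v + z && v ≤ w + z && z ≤ w + v && w + v + z ≤ 42 && !((w == 18 || v == 18 || z == 18) && (w == 20 || v == 20 || z == 20))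

def chk (w v z : ℕ) : Bool :=
  2048 * (Phi w v z + Phi w z v + Phi v z w) ==
    Gw w v z + Gw w z v + Gw v w z + Gw v z w + Gw z w v + Gw z v w

set_option maxRecDepth 100000 in
lemma chk_all : (dvals.all fun w => dvals.all fun v => dvals.all fun z => !(okk w v z) || chk w v z) = true := by
  decide +kernel

end Pool.Agent.H817R2.C20
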