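import Mathlib
import Pool.Agent.H817R2.C20D

set_option autoImplicit false
open Finset

namespace Pool.Agent.H817R2.C20

def Dd (x y : Wd) : ℕ := (symmDiff x y).card

lemma Dd_comm (x y : Wd) : Dd x y = Dd y x := by
  unfold Dd; rw [symmDiff_comm]

def TS (C : Finset Wd) (P : ℕ → ℕ → ℕ → ℤ) : ℤ :=
  ∑ c ∈ C, ∑ x ∈ C, ∑ y ∈ C, P (Dd c x) (Dd c y) (Dd x y)

lemma TS_swap1 (C : Finset Wd) (P : ℕ → ℕ → ℕ → ℤ) :
    TS C (fun w v z => P w z v) = TS C P := by
  unfold TS
  rw [Finset.sum_comm]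
  refine Finset.sum_congr rfl fun c _ => Finset.sum_congr rfl fun x _ => Finset.sum_congr rfl fun y _ => ?_
  rw [Dd_comm x c]

lemma TS_swap2 (C : Finset Wd) (P : ℕ → ℕ → ℕ → ℤ) :
    TS C (fun w v z => P v w z) = TS C P := by
  unfold TS
  refine Finset.sum_congr rfl fun c _ => ?_
  rw [Finset.sum_comm]
  refine Finset.sum_congr rfl fun x _ => Finset.sum_congr rfl fun y _ => ?_
  rw [Dd_comm y x]

lemma TS_vzw (C : Finset Wd) (P : ℕ → ℕ → ℕ → ℤ) :
    TS C (fun w v z => P v z w) = TS C P :=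
  (TS_swap2 C (fun w v z => P w z v)).trans (TS_swap1 C P)

lemma TS_zwv (C : Finset Wd) (P : ℕ → ℕ → ℕ → ℤ) :
    TS C (fun w v z => P z w v) = TS C P :=
  (TS_swap1 C (fun w v z => P v w z)).trans (TS_swap2 C P)

lemma TS_zvw (C : Finset Wd) (P : ℕ → ℕ → ℕ → ℤ) :
    TS C (fun w v z => P z v w) = TS C P :=
  (TS_swap1 C (fun w v z => P v z w)).trans (TS_vzw C P)

lemma TS_add (C : Finset Wd) (P Q : ℕ → ℕ → ℕ → ℤ) :
    TS C (fun w v z => P w v z + Q w v z) = TS C P + TS C Q := by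
  unfold TS
  simp only [sum_add_distrib]

lemma TS_mul (C : Finset Wd) (k : ℤ) (P : ℕ → ℕ → ℕ → ℤ) :
    TS C (fun w v z => k * P w v z) = k * TS C P := by
  unfold TS
  simp only [mul_sum]

lemma inter_card (X Y : Wd) : (X ∩ Y).card = (X.card + Y.card - (symmDiff X Y).card) / 2 := by
  have := card_symm X Y
  omega

lemma chk_nat (w v z : ℕ) (hw : w ∈ dvals) (hv : v ∈ dvals) (hz : z ∈ dvals)
    (hok : okk w v z = true) :
    2048 * (Phi w v z + Phi w z v + Phi v z w) =
    Gw w v z + Gw w z v + Gw v w z + Gw v z w + Gw z w v + Gw z v w := by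
  have h1 := chk_all
  rw [List.all_eq_true] at h1
  have h2 := h1 _ hw
  rw [List.all_eq_true] at h2
  have h3 := h2 _ hv
  rw [List.all_eq_true] at h3
  have h4 := h3 _ hz
  rw [hok] at h4
  simp only [Bool.not_true, Bool.false_or] at h4
  unfold chk at h4
  exact eq_of_beq h4

lemma okk_of (w v z : ℕ) (h1 : w ≤ v + z) (h2 : v ≤ w + z) (h3 : z ≤ w + v) (h4 : w + v + z ≤ 42)
    (h5 : ¬ ((w = 18 ∨ v = 18 ∨ z = 18) ∧ (w = 20 ∨ v = 20 ∨ z = 20))) : okk w v z = true := by
  unfold okk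
  have h5' : ((w == 18 || v == 18 || z == 18) && (w == 20 || v == 20 || z == 20)) = false := by
    rw [Bool.eq_false_iff]
    intro hh
    simp only [Bool.and_eq_true, Bool.or_eq_true, beq_iff_eq] at hh
    apply h5
    tauto
  rw [h5']
  simp [h1, h2, h3, h4]

lemma IsCode.okk {C : Finset Wd} (h : IsCode C) {c x y : Wd} (hc : c ∈ C) (hx : x ∈ C) (hy : y ∈ C) :
    okk (Dd c x) (Dd c y) (Dd x y) = true := by
  have t1 := card_symm (symmDiff c x) (symmDiff c y)
  rw [symm_tri] at t1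
  have t2 := card_symm (symmDiff x c) (symmDiff x y)
  rw [symm_tri] at t2
  have t3 := card_symm (symmDiff y c) (symmDiff y x)
  rw [symm_tri] at t3
  have t4 := card_symm (symmDiff c x)ᶜ (symmDiff c y)ᶜ
  rw [symm_compl, symm_tri] at t4
  have t5 := card_compl_add_card (symmDiff c x)
  have t6 := card_compl_add_card (symmDiff c y)
  simp only [Fintype.card_fin] at t5 t6
  have e1 : (symmDiff x c).card = Dd c x := by rw [Dd_comm]; rfl
  have e2 : (symmDiff y c).card = Dd c y := by rw [Dd_comm]; rfl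
  have e3 : (symmDiff y x).card = Dd x y := by rw [Dd_comm]; rfl
  have f1 : (symmDiff c x).card = Dd c x := rfl
  have f2 : (symmDiff c y).card = Dd c y := rfl
  have f3 : (symmDiff x y).card = Dd x y := rfl
  rw [e1, f2, f3] at t2
  rw [e2, e3, f1] at t3
  rw [f1, f2, f3] at t1
  rw [f1] at t5
  rw [f2] at t6
  rw [f3] at t4
  have g1 : x ≠ y → Dd c x + Dd c y + 6 ≤ 42 := fun hxy => by
    have := h.far (c := c) hx hy hxy
    rw [f1, f2] at this; omega
  have g2 : c ≠ y → Dd c x + Dd x y + 6 ≤ 42 := fun hxy => by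
    have := h.far (c := x) hc hy hxy
    rw [e1, f3] at this; omega
  have g3 : c ≠ x → Dd c y + Dd x y + 6 ≤ 42 := fun hxy => by
    have := h.far (c := y) hc hx hxy
    rw [e2, e3] at this; omega
  have k1 : x = y → Dd x y = 0 ∧ Dd c x = Dd c y := by rintro rfl; simp [Dd]
  have k2 : c = y → Dd c y = 0 ∧ Dd c x = Dd x y := by rintro rfl; simp [Dd, symmDiff_comm]
  have k3 : c = x → Dd c x = 0 ∧ Dd c y = Dd x y := by rintro rfl; simp [Dd]
  generalize Dd c x = w at *
  generalize Dd c y = v at *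
  generalize Dd x y = z at *
  apply okk_of
  · omega
  · omega
  · omega
  · omega
  · rintro ⟨hh1, hh2⟩
    by_cases q1 : x = y
    · have := k1 q1; omega
    · by_cases q2 : c = y
      · have := k2 q2; omega
      · by_cases q3 : c = x
        · have := k3 q3; omega
        · have := g1 q1; have := g2 q2; have := g3 q3
          omega

lemma IsCode.point {C : Finset Wd} (h : IsCode C) {c x y : Wd} (hc : c ∈ C) (hx : x ∈ C) (hy : y ∈ C) :
    2048 * (Phi (Dd c x) (Dd c y) (Dd x y) + Phi (Dd c x) (Dd x y) (Dd c y) + Phi (Dd c y) (Dd x y) (Dd c x)) =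
    Gw (Dd c x) (Dd c y) (Dd x y) + Gw (Dd c x) (Dd x y) (Dd c y) + Gw (Dd c y) (Dd c x) (Dd x y) +
    Gw (Dd c y) (Dd x y) (Dd c x) + Gw (Dd x y) (Dd c x) (Dd c y) + Gw (Dd x y) (Dd c y) (Dd c x) := by
  have hv : ∀ a b : Wd, a ∈ C → b ∈ C → Dd a b ∈ dvals := by
    intro a b ha hb
    have := h.vals ha hb
    unfold dvals Dd
    simp only [List.mem_cons, List.not_mem_nil, or_false]
    exact this
  exact chk_nat _ _ _ (hv c x hc hx) (hv c y hc hy) (hv x y hx hy) (h.okk hc hx hy)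

theorem IsCode.TS_eq {C : Finset Wd} (h : IsCode C) : 1024 * TS C Phi = TS C Gw := by
  have h1 : TS C (fun w v z => 2048 * (Phi w v z + Phi w z v + Phi v z w)) =
      TS C (fun w v z => Gw w v z + Gw w z v + Gw v w z + Gw v z w + Gw z w v + Gw z v w) := by
    unfold TS
    refine Finset.sum_congr rfl fun c hc => Finset.sum_congr rfl fun x hx => Finset.sum_congr rfl fun y hy => ?_
    exact h.point hc hx hy
  rw [TS_mul, TS_add, TS_add, TS_add, TS_add, TS_add, TS_add, TS_add] at h1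
  have a1 := TS_swap1 C Phi
  have a2 := TS_vzw C Phi
  have b1 := TS_swap1 C Gw
  have b2 := TS_swap2 C Gw
  have b3 := TS_vzw C Gw
  have b4 := TS_zwv C Gw
  have b5 := TS_zvw C Gw
  have c1 : TS C (fun w v z => Phi w v z) = TS C Phi := rfl
  have c2 : TS C (fun w v z => Gw w v z) = TS C Gw := rfl
  rw [a1, a2, b1, b2, b3, b4, b5, c1, c2] at h1
  linarith

end Pool.Agent.H817R2.C20
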