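import Mathlib
import Pool.Agent.H817R2.C20E

set_option autoImplicit false
open Finset

namespace Pool.Agent.H817R2.C20

lemma choose_sum (X Y : Wd) (r : ℕ) :
    (((Y ∩ X).card.choose r : ℕ) : ℤ) = ∑ R ∈ powersetCard r X, (if R ⊆ Y then (1:ℤ) else 0) := by
  rw [← card_powersetCard, Finset.sum_boole]
  congr 2
  ext R
  simp only [mem_powersetCard, mem_filter, subset_inter_iff]
  tauto

theorem IsCode.moment {C : Finset Wd} (h : IsCode C) (c X : Wd) (r s : ℕ) (hrs : r + s ≤ 6) :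
    ∑ y ∈ C, ((((symmDiff c y ∩ X).card.choose r * (symmDiff c y \ X).card.choose s : ℕ)) : ℤ) =
      ((X.card.choose r * (21 - X.card).choose s * 2 ^ (12 - r - s) : ℕ) : ℤ) := by
  have h1 : ∀ y ∈ C, ((((symmDiff c y ∩ X).card.choose r * (symmDiff c y \ X).card.choose s : ℕ)) : ℤ) =
      ∑ R ∈ powersetCard r X, ∑ S ∈ powersetCard s Xᶜ, (if R ∪ S ⊆ symmDiff c y then (1:ℤ) else 0) := by
    intro y _
    rw [sdiff_eq_inter_compl]
    push_cast
    rw [choose_sum, choose_sum, Finset.sum_mul_sum]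
    refine Finset.sum_congr rfl fun R _ => Finset.sum_congr rfl fun S _ => ?_
    by_cases h1 : R ⊆ symmDiff c y <;> by_cases h2 : S ⊆ symmDiff c y <;>
      simp [h1, h2, union_subset_iff]
  rw [Finset.sum_congr rfl h1, Finset.sum_comm]
  have h2 : ∀ R ∈ powersetCard r X, (∑ y ∈ C, ∑ S ∈ powersetCard s Xᶜ, (if R ∪ S ⊆ symmDiff c y then (1:ℤ) else 0)) =
      ∑ S ∈ powersetCard s Xᶜ, (2:ℤ) ^ (12 - r - s) := by
    intro R hR
    rw [Finset.sum_comm]
    refine Finset.sum_congr rfl fun S hS => ?_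
    rw [mem_powersetCard] at hR hS
    have hd : Disjoint R S := by
      rw [disjoint_left]; intro i h1 h2
      have := hS.1 h2
      rw [mem_compl] at this
      exact this (hR.1 h1)
    have hc : (R ∪ S).card = r + s := by rw [card_union_of_disjoint hd, hR.2, hS.2]
    have h3 := h.oa c (R ∪ S) (by omega)
    rw [hc] at h3
    have h4 : (4096:ℤ) = 2 ^ (r+s) * 2 ^ (12 - r - s) := by
      rw [← pow_add, show r + s + (12 - r - s) = 12 by omega]; norm_num
    rw [h4] at h3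
    exact mul_left_cancel₀ (pow_ne_zero _ (by norm_num)) h3
  rw [Finset.sum_congr rfl h2]
  simp only [sum_const, card_powersetCard, nsmul_eq_mul, card_compl, Fintype.card_fin]
  push_cast
  ring

def Hl (w : ℕ) (l : List (ℕ × ℕ × ℤ)) : ℤ :=
  (l.map fun t => t.2.2 * ((w.choose t.1 * (21-w).choose t.2.1 * 2 ^ (12 - t.1 - t.2.1) : ℕ) : ℤ)).sum

lemma IsCode.list_moment {C : Finset Wd} (h : IsCode C) (c X : Wd) (l : List (ℕ × ℕ × ℤ))
    (hl : ∀ t ∈ l, t.1 + t.2.1 ≤ 6) :
    ∑ y ∈ C, (l.map fun t => t.2.2 * ((((symmDiff c y ∩ X).card.choose t.1 *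
      (symmDiff c y \ X).card.choose t.2.1 : ℕ)) : ℤ)).sum = Hl X.card l := by
  induction l with
  | nil => simp [Hl]
  | cons t l ih =>
    simp only [List.map_cons, List.sum_cons, sum_add_distrib]
    rw [ih (fun t ht => hl t (List.mem_cons_of_mem _ ht)), ← mul_sum,
      h.moment c X t.1 t.2.1 (hl t List.mem_cons_self)]
    simp [Hl]

lemma gl_deg (w : ℕ) : ∀ t ∈ gl w, t.1 + t.2.1 ≤ 6 := by
  unfold gl
  split <;> simp

lemma ch_le (n k : ℕ) (hn : n ≤ 21) (hk : k ≤ 6) : ch n k = n.choose k :=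
  (ch_eq n (mem_range.mpr (by omega)) k (mem_range.mpr (by omega))).symm

/-- sum over the third word -/
theorem IsCode.sum_Gw {C : Finset Wd} (h : IsCode C) {c x : Wd} (hc : c ∈ C) :
    ∑ y ∈ C, Gw (Dd c x) (Dd c y) (Dd x y) = Hl (Dd c x) (gl (Dd c x)) + ew (Dd c x) := by
  have h1 : ∀ y ∈ C, Gw (Dd c x) (Dd c y) (Dd x y) =
      ((gl (Dd c x)).map fun t => t.2.2 * ((((symmDiff c y ∩ symmDiff c x).card.choose t.1 *
      (symmDiff c y \ symmDiff c x).card.choose t.2.1 : ℕ)) : ℤ)).sum +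
      ew (Dd c x) * (if (symmDiff c y).card = 0 then (1:ℤ) else 0) := by
    intro y _
    have e0 : (symmDiff c y ∩ symmDiff c x).card = (Dd c x + Dd c y - Dd x y) / 2 := by
      have := inter_card (symmDiff c x) (symmDiff c y)
      rw [symm_tri, inter_comm] at this
      exact this
    have e1 : (symmDiff c y \ symmDiff c x).card = Dd c y - (Dd c x + Dd c y - Dd x y) / 2 := by
      have := card_sdiff_add_card_inter (symmDiff c y) (symmDiff c x)
      rw [e0] at this
      unfold Dd at *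
      omega
    have b0 : (symmDiff c y ∩ symmDiff c x).card ≤ 21 := card_le21 _
    have b1 : (symmDiff c y \ symmDiff c x).card ≤ 21 := card_le21 _
    unfold Gw Gf
    rw [← e1, ← e0]
    congr 1
    · congr 1
      apply List.map_congr_left
      intro t ht
      have := gl_deg _ t ht
      rw [ch_le _ _ b0 (by omega), ch_le _ _ b1 (by omega)]
    · have : (symmDiff c y).card = Dd c y := rfl
      rw [this]
      split_ifs <;> simp
  rw [Finset.sum_congr rfl h1, sum_add_distrib, ← mul_sum, sum_ind, Nn_zero hc,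
    h.list_moment c (symmDiff c x) _ (gl_deg _)]
  simp [Dd]

theorem IsCode.TS_Gw {C : Finset Wd} (h : IsCode C) :
    TS C Gw = ∑ c ∈ C, ∑ x ∈ C, (Hl (Dd c x) (gl (Dd c x)) + ew (Dd c x)) := by
  unfold TS
  exact Finset.sum_congr rfl fun c hc => Finset.sum_congr rfl fun x _ => h.sum_Gw hc

/-- local sums -/
def Sg (C : Finset Wd) (r : ℕ) (c T : Wd) : ℤ :=
  ∑ x ∈ C, hr r (Dd c x) (T ∩ symmDiff c x).card

lemma R4_eq (r a b c d : ℕ) (f g : ℕ → ℤ) (hr : r ≤ 6) (ha : a ≤ 21) (hb : b ≤ 21) (hc : c ≤ 21)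
    (hd : d ≤ 21) : R4 r a b c d f g = R4f r a b c d f g := by
  unfold R4 R4f
  refine Finset.sum_congr rfl fun p hp => Finset.sum_congr rfl fun q hq => Finset.sum_congr rfl fun s hs => ?_
  rw [mem_range] at hp hq hs
  rw [ch_le a p ha (by omega), ch_le b q hb (by omega), ch_le c s hc (by omega),
    ch_le d (r-p-q-s) hd (by omega)]

lemma sum_Sg_sq (C : Finset Wd) (r : ℕ) (hr6 : r ≤ 6) (c : Wd) :
    ∑ T ∈ powersetCard r (univ : Wd), (Sg C r c T) ^ 2 =
      ∑ x ∈ C, ∑ y ∈ C, Psi r (Dd c x) (Dd c y) (Dd x y) := by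
  unfold Sg
  simp only [sq, Finset.sum_mul_sum]
  rw [Finset.sum_comm]
  refine Finset.sum_congr rfl fun x _ => ?_
  rw [Finset.sum_comm]
  refine Finset.sum_congr rfl fun y _ => ?_
  rw [sum_four, R4_eq _ _ _ _ _ _ _ hr6 (card_le21 _) (card_le21 _) (card_le21 _) (card_le21 _)]
  have e0 := inter_card (symmDiff c x) (symmDiff c y)
  rw [symm_tri] at e0
  have e1 := card_sdiff_add_card_inter (symmDiff c x) (symmDiff c y)
  have e2 := card_sdiff_add_card_inter (symmDiff c y) (symmDiff c x)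
  rw [inter_comm] at e2
  have e3 : ((symmDiff c x)ᶜ ∩ (symmDiff c y)ᶜ).card =
      21 - ((symmDiff c x).card + (symmDiff c y).card - (symmDiff c x ∩ symmDiff c y).card) := by
    rw [← compl_union, card_compl, Fintype.card_fin]
    have := card_union_add_card_inter (symmDiff c x) (symmDiff c y)
    omega
  unfold Psi Dd
  rw [← e0, ← e3]
  have f1 : (symmDiff c x \ symmDiff c y).card = (symmDiff c x).card - (symmDiff c x ∩ symmDiff c y).card := by omega
  have f2 : (symmDiff c y \ symmDiff c x).card = (symmDiff c y).card - (symmDiff c x ∩ symmDiff c y).card := by omega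
  rw [f1, f2]

def Ln (r w : ℕ) : ℤ :=
  ∑ p ∈ range (r+1), ((w.choose p * (21 - w).choose (r-p) : ℕ) : ℤ) * hr r w p

lemma sum_Sg (C : Finset Wd) (r : ℕ) (c : Wd) :
    ∑ T ∈ powersetCard r (univ : Wd), Sg C r c T = ∑ x ∈ C, Ln r (Dd c x) := by
  unfold Sg
  rw [Finset.sum_comm]
  refine Finset.sum_congr rfl fun x _ => ?_
  rw [sum_two (symmDiff c x) r (hr r (Dd c x))]
  rfl

lemma consec (a m : ℤ) : 0 ≤ (a - m) * (a - (m+1)) := by
  rcases le_or_gt a m with h | h
  · nlinarith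
  · have : m + 1 ≤ a := h
    nlinarith

lemma level (C : Finset Wd) (r : ℕ) (hr6 : r ≤ 6) (c : Wd) (m : ℤ) :
    0 ≤ (∑ x ∈ C, ∑ y ∈ C, Psi r (Dd c x) (Dd c y) (Dd x y)) - (2*m+1) * ∑ x ∈ C, Ln r (Dd c x) +
      m * (m+1) * (Nat.choose 21 r : ℤ) := by
  have h1 : 0 ≤ ∑ T ∈ powersetCard r (univ : Wd), (Sg C r c T - m) * (Sg C r c T - (m+1)) :=
    sum_nonneg fun T _ => consec _ _
  have h2 : ∀ T ∈ powersetCard r (univ : Wd), (Sg C r c T - m) * (Sg C r c T - (m+1)) =
      (Sg C r c T) ^ 2 - (2*m+1) * Sg C r c T + m * (m+1) := by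
    intro T _; ring
  rw [Finset.sum_congr rfl h2, sum_add_distrib, sum_sub_distrib, ← mul_sum, sum_Sg_sq C r hr6,
    sum_Sg, sum_const, card_powersetCard] at h1
  simp only [card_univ, Fintype.card_fin, nsmul_eq_mul] at h1
  linarith

end Pool.Agent.H817R2.C20
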