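import Mathlib
import Pool.Agent.H817R2.C20F

set_option autoImplicit false
open Finset

namespace Pool.Agent.H817R2.C20

def ff (w : ℕ) : ℤ := Hl w (gl w) + ew w - 1024 * (63 * Ln 2 w + 9 * Ln 3 w + 13 * Ln 4 w)

def pp (w : ℕ) : ℤ := -13973883 * (w.choose 1 : ℤ) + 11949814 * (w.choose 2 : ℤ) - 6667632 * (w.choose 3 : ℤ)
  + 2715112 * (w.choose 4 : ℤ) - 761880 * (w.choose 5 : ℤ) + 113968 * (w.choose 6 : ℤ)

lemma ff_eq : ∀ w ∈ dvals, ff w = pp w + 6484992 * (if w = 18 then 1 else 0) +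
    45730816 * (if w = 20 then 1 else 0) := by
  decide +kernel

lemma IsCode.mom1 {C : Finset Wd} (h : IsCode C) (c : Wd) (s : ℕ) (hs : s ≤ 6) :
    ∑ y ∈ C, ((Dd c y).choose s : ℤ) = ((Nat.choose 21 s * 2 ^ (12 - s) : ℕ) : ℤ) := by
  have := h.moment c ∅ 0 s (by omega)
  simpa [Dd] using this

lemma IsCode.sum_ff {C : Finset Wd} (h : IsCode C) {c : Wd} (hc : c ∈ C) :
    ∑ x ∈ C, ff (Dd c x) + 307865600 < 0 := by
  have h1 : ∀ x ∈ C, ff (Dd c x) = pp (Dd c x) +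
      6484992 * (if (symmDiff c x).card = 18 then (1:ℤ) else 0) +
      45730816 * (if (symmDiff c x).card = 20 then (1:ℤ) else 0) := by
    intro x hx
    apply ff_eq
    have := h.vals hc hx
    unfold dvals Dd
    simp only [List.mem_cons, List.not_mem_nil, or_false]
    exact this
  have h2 : ∑ x ∈ C, pp (Dd c x) = -13973883 * ((Nat.choose 21 1 * 2 ^ 11 : ℕ) : ℤ) +
      11949814 * ((Nat.choose 21 2 * 2 ^ 10 : ℕ) : ℤ) - 6667632 * ((Nat.choose 21 3 * 2 ^ 9 : ℕ) : ℤ)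
      + 2715112 * ((Nat.choose 21 4 * 2 ^ 8 : ℕ) : ℤ) - 761880 * ((Nat.choose 21 5 * 2 ^ 7 : ℕ) : ℤ)
      + 113968 * ((Nat.choose 21 6 * 2 ^ 6 : ℕ) : ℤ) := by
    unfold pp
    simp only [sum_add_distrib, sum_sub_distrib, ← mul_sum]
    rw [h.mom1 c 1 (by norm_num), h.mom1 c 2 (by norm_num), h.mom1 c 3 (by norm_num),
      h.mom1 c 4 (by norm_num), h.mom1 c 5 (by norm_num), h.mom1 c 6 (by norm_num)]
  rw [Finset.sum_congr rfl h1, sum_add_distrib, sum_add_distrib, ← mul_sum, ← mul_sum, sum_ind,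
    sum_ind, h2]
  have h3 := h.tight.2 c hc
  have c1 : Nat.choose 21 1 = 21 := by decide
  have c2 : Nat.choose 21 2 = 210 := by decide
  have c3 : Nat.choose 21 3 = 1330 := by decide
  have c4 : Nat.choose 21 4 = 5985 := by decide +kernel
  have c5 : Nat.choose 21 5 = 20349 := by decide +kernel
  have c6 : Nat.choose 21 6 = 54264 := by decide +kernel
  rw [c1, c2, c3, c4, c5, c6]
  push_cast
  have h4 : Nn C 20 c = 0 ∧ Nn C 18 c = 7 ∨ Nn C 20 c = 1 ∧ Nn C 18 c = 0 := by omega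
  rcases h4 with ⟨ha, hb⟩ | ⟨ha, hb⟩ <;> rw [ha, hb] <;> norm_num

theorem IsCode.false {C : Finset Wd} (h : IsCode C) : False := by
  have h1 : ∀ c ∈ C, 0 ≤ (∑ x ∈ C, ∑ y ∈ C, Phi (Dd c x) (Dd c y) (Dd x y)) -
      ∑ x ∈ C, (63 * Ln 2 (Dd c x) + 9 * Ln 3 (Dd c x) + 13 * Ln 4 (Dd c x)) + 300650 := by
    intro c _
    have a2 := level C 2 (by norm_num) c 3
    have a3 := level C 3 (by norm_num) c 4
    have a4 := level C 4 (by norm_num) c 6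
    have c2 : Nat.choose 21 2 = 210 := by decide
    have c3 : Nat.choose 21 3 = 1330 := by decide
    have c4 : Nat.choose 21 4 = 5985 := by decide +kernel
    rw [c2] at a2
    rw [c3] at a3
    rw [c4] at a4
    have e : (∑ x ∈ C, ∑ y ∈ C, Phi (Dd c x) (Dd c y) (Dd x y)) =
        9 * (∑ x ∈ C, ∑ y ∈ C, Psi 2 (Dd c x) (Dd c y) (Dd x y)) +
        (∑ x ∈ C, ∑ y ∈ C, Psi 3 (Dd c x) (Dd c y) (Dd x y)) +
        (∑ x ∈ C, ∑ y ∈ C, Psi 4 (Dd c x) (Dd c y) (Dd x y)) := by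
      unfold Phi
      simp only [sum_add_distrib, mul_sum]
    have e2 : ∑ x ∈ C, (63 * Ln 2 (Dd c x) + 9 * Ln 3 (Dd c x) + 13 * Ln 4 (Dd c x)) =
        63 * ∑ x ∈ C, Ln 2 (Dd c x) + 9 * ∑ x ∈ C, Ln 3 (Dd c x) + 13 * ∑ x ∈ C, Ln 4 (Dd c x) := by
      simp only [sum_add_distrib, mul_sum]
    rw [e, e2]
    push_cast at a2 a3 a4
    linarith
  have h2 := sum_nonneg h1
  rw [sum_add_distrib, sum_sub_distrib] at h2
  have h3 : ∑ c ∈ C, ∑ x ∈ C, ∑ y ∈ C, Phi (Dd c x) (Dd c y) (Dd x y) = TS C Phi := rfl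
  rw [h3] at h2
  have h4 := h.TS_eq
  rw [h.TS_Gw] at h4
  have h5 : ∑ c ∈ C, (∑ x ∈ C, ff (Dd c x) + 307865600) < 0 := by
    have hne : C.Nonempty := by
      rw [← card_pos, h.card]; norm_num
    have := sum_lt_sum_of_nonempty (s := C) (f := fun c => ∑ x ∈ C, ff (Dd c x) + 307865600)
      (g := fun _ => (0:ℤ)) hne (fun c hc => h.sum_ff hc)
    simpa using this
  have h6 : ∑ c ∈ C, (∑ x ∈ C, ff (Dd c x) + 307865600) =
      1024 * (TS C Phi - ∑ c ∈ C, ∑ x ∈ C, (63 * Ln 2 (Dd c x) + 9 * Ln 3 (Dd c x) + 13 * Ln 4 (Dd c x)) +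
        ∑ c ∈ C, 300650) := by
    have h7 : ∀ c ∈ C, (∑ x ∈ C, ff (Dd c x) + 307865600) =
        ∑ x ∈ C, (Hl (Dd c x) (gl (Dd c x)) + ew (Dd c x)) -
        1024 * ∑ x ∈ C, (63 * Ln 2 (Dd c x) + 9 * Ln 3 (Dd c x) + 13 * Ln 4 (Dd c x)) +
        1024 * 300650 := by
      intro c _
      unfold ff
      rw [sum_sub_distrib, ← mul_sum]
      norm_num
    rw [Finset.sum_congr rfl h7, sum_add_distrib, sum_sub_distrib, ← mul_sum, ← mul_sum, ← h4]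
    ring
  rw [h6] at h5
  linarith

end Pool.Agent.H817R2.C20
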